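import Pool.Agent.H.MP_222440_ag.B

set_option autoImplicit false
open MvPolynomial Finsupp Pool.Agent.H.MP_222440_ag

namespace Pool.Agent.Results.MP_222440_ag.Flag

theorem wt {N n : ℕ} (u : Fin N → Fin n → ℤ) (d : Fin N →₀ ℕ) :
    weight (deg u) d = Submodule.Quotient.mk fun ρ => (d ρ : ℤ) := by
  induction d using Finsupp.induction_linear with
  | zero => rfl
  | add a b ha hb => rw [map_add, ha, hb, ← Submodule.Quotient.mk_add]; congr 1
  | single j c =>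
    rw [weight_single, deg, ← natCast_zsmul, ← Submodule.Quotient.mk_smul]; congr 1; ext
    simp [Pi.single_apply, Finsupp.single_apply, eq_comm]

theorem result {N n : ℕ} (u : Fin N → Fin n → ℤ) (F : Set (Finset (Fin N))) (hF : IsFan u F)
    (X : ∀ k, HilbScheme (deg u) (hgen (deg u) k)) (r : ℕ) (I : Ideal (MvPolynomial (Fin N) ℂ))
    (hI : I ∈ Slip (irr F) (X r)) : ∃ J : ℕ → Ideal (MvPolynomial (Fin N) ℂ),
      J r = I ∧ J 0 = ⊤ ∧ (∀ k < r, J (k + 1) ≤ J k) ∧ ∀ k ≤ r, J k ∈ Slip (irr F) (X k) := by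
  refine main (fun D => ?_) (fun h => ?_) (fun hr => ?_) X hI
  · rcases Set.eq_empty_or_nonempty {d : Fin N →₀ ℕ | weight (deg u) d = D} with h | ⟨a, rfl⟩
    · exact h ▸ Set.finite_empty
    choose τ _ c h1 _ h2 using fun ρ => hF.complete fun i => -u ρ i
    refine (Set.finite_Iic (equivFunOnFinite.symm fun ρ => a ρ + ⌈∑ t, c ρ t * a t⌉₊)).subset fun d hd ρ => ?_
    rw [Set.mem_ofPred_eq, wt, wt, Submodule.Quotient.eq] at hd
    obtain ⟨m, hm⟩ := hd
    have h3 : ∀ t, (d t : ℝ) - a t = ∑ i, (u t i : ℝ) * m i := fun t => by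
      have := congrFun hm t
      simp only [Matrix.mulVecLin_apply, Matrix.mulVec, dotProduct, Matrix.of_apply, Pi.sub_apply] at this
      exact_mod_cast this.symm
    have h4 : (d ρ : ℝ) - a ρ = ∑ t, c ρ t * (a t - d t) := by
      simp only [← neg_sub (d _ : ℝ), h3, mul_neg, Finset.mul_sum, Finset.sum_neg_distrib, ← mul_assoc]
      rw [Finset.sum_comm, ← Finset.sum_neg_distrib]
      exact Finset.sum_congr rfl fun i _ => by rw [← Finset.sum_mul, ← h2]; ring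
    have h5 : ∑ t, c ρ t * ((a t : ℝ) - d t) ≤ ∑ t, c ρ t * a t :=
      Finset.sum_le_sum fun t _ => mul_le_mul_of_nonneg_left (sub_le_self _ (Nat.cast_nonneg _)) (h1 ρ t)
    have h6 := Nat.le_ceil (∑ t, c ρ t * a t)
    exact_mod_cast (show (d ρ : ℝ) ≤ a ρ + ⌈∑ t, c ρ t * a t⌉₊ by linarith)
  · obtain ⟨τ, h1, -⟩ := hF.complete 0
    exact Finset.prod_ne_zero_iff.mpr (fun ρ _ => X_ne_zero ρ) (h.le (Ideal.subset_span ⟨τ, h1, rfl⟩))
  · obtain ⟨x, -, hx⟩ := hI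
    obtain ⟨-, -, ⟨-, p, -, h1, -⟩, -⟩ := Set.Nonempty.of_closure ⟨x, hx⟩
    obtain ⟨ρ⟩ : Nonempty (Fin N) := not_isEmpty_iff.mp fun _ => by
      simpa using congrArg Fin.val (h1 ⟨0, by omega⟩ ⟨1, by omega⟩ ⟨1, isEmptyElim⟩)
    obtain ⟨τ, h2, h3⟩ := hF.ray ρ
    obtain ⟨i, hi⟩ := Function.ne_iff.mp ((hF.indep τ h2).ne_zero ⟨ρ, h3⟩)
    refine ⟨equivFunOnFinite.symm fun t => (u t i).toNat, equivFunOnFinite.symm fun t => (-u t i).toNat, fun e => hi ?_, ?_⟩
    · have : (u ρ i).toNat = (-u ρ i).toNat := DFunLike.congr_fun e ρ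
      change u ρ i = 0
      omega
    · rw [wt, wt, Submodule.Quotient.eq]
      exact ⟨Pi.single i 1, funext fun t => by simp⟩

end Pool.Agent.Results.MP_222440_ag.Flag
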